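import Pool.Agent.Q169.ZD.Stm2
import Pool.Agent.H919R4.ZS.Act

/-!
# Job LTWO of project ZD: square summable cochains
-/

set_option autoImplicit false

open scoped Matrix ENNReal

namespace Pool.Agent.Q241.ZD

open Pool.Agent.H919R4.ZS
open Pool.Agent.TH38.ZT (ExAt ex_indep contraction')
open Pool.Agent.TH38.CX (AcyclicGComplex)
open Pool.Agent.Q169.ZD

noncomputable section

variable {N : Type} [Group N]

lemma fin_supp {α : Type*} (a : α →₀ ℤ) (v : α → ℂ) :
    (Function.support fun g => ((a g : ℤ) : ℂ) * v g).Finite := by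
  refine a.support.finite_toSet.subset fun g hg => ?_
  rw [Finset.mem_coe, Finsupp.mem_support_iff]
  intro h0
  apply hg
  simp [h0]

lemma L_apply (a : MonoidAlgebra ℤ N) (v : L2 N) (h : N) :
    (L a v) h = ∑ᶠ g, ((a.coeff g : ℤ) : ℂ) * v (g⁻¹ * h) := by
  refine MonoidAlgebra.induction_linear a ?_ ?_ ?_
  · rw [map_zero]
    simp
  · intro x y hx hy
    rw [map_add, ContinuousLinearMap.add_apply, lp.coeFn_add, Pi.add_apply, hx, hy,
      ← finsum_add_distrib (fin_supp x.coeff fun g => v (g⁻¹ * h))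
        (fin_supp y.coeff fun g => v (g⁻¹ * h))]
    refine finsum_congr fun g => ?_
    rw [MonoidAlgebra.coeff_add, Finsupp.add_apply]
    push_cast
    ring
  · intro g c
    rw [L_single, finsum_eq_single _ g]
    · rw [MonoidAlgebra.coeff_single, Finsupp.single_eq_same, ContinuousLinearMap.smul_apply,
        ← Int.cast_smul_eq_zsmul ℂ c, lp.coeFn_smul, Pi.smul_apply, lregL_apply, smul_eq_mul]
    · intro x hx
      rw [MonoidAlgebra.coeff_single, Finsupp.single_eq_of_ne hx]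
      simp

variable {E : Type} {n : ℕ}

lemma VV_mem (ψ : E ≃ N × Fin n) (c : E → ℂ) (hc : Memℓp c 2) (j : Fin n) :
    Memℓp (fun h : N => c (ψ.symm (h⁻¹, j))) 2 := by
  rw [memℓp_gen_iff (by norm_num)] at hc ⊢
  exact hc.comp_injective (i := fun h : N => ψ.symm (h⁻¹, j)) (by
    intro a b hab
    have := ψ.symm.injective hab
    simpa using this)

/-- the tuple of a cochain -/
def VV (ψ : E ≃ N × Fin n) (c : E → ℂ) (hc : Memℓp c 2) (j : Fin n) : L2 N :=
  ⟨fun h => c (ψ.symm (h⁻¹, j)), VV_mem ψ c hc j⟩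

lemma VV_apply (ψ : E ≃ N × Fin n) (c : E → ℂ) (hc : Memℓp c 2) (j : Fin n) (h : N) :
    VV ψ c hc j h = c (ψ.symm (h⁻¹, j)) := rfl

/-- the cochain of a tuple -/
def cc (ψ : E ≃ N × Fin n) (w : Fin n → L2 N) (e : E) : ℂ := w (ψ e).2 ((ψ e).1⁻¹)

lemma cc_mem (ψ : E ≃ N × Fin n) (w : Fin n → L2 N) : Memℓp (cc ψ w) 2 := by
  rw [memℓp_gen_iff (by norm_num)]
  have h1 : Summable fun x : Fin n × N => ‖w x.1 (x.2⁻¹)‖ ^ (2 : ℝ≥0∞).toReal := by
    rw [summable_prod_of_nonneg (fun x => by positivity)]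
    refine ⟨fun j => ?_, Summable.of_finite⟩
    have h2 : Memℓp (w j : N → ℂ) 2 := lp.memℓp (w j)
    rw [memℓp_gen_iff (by norm_num)] at h2
    exact h2.comp_injective inv_injective
  have h3 := h1.comp_injective (i := fun e : E => ((ψ e).2, (ψ e).1)) (by
    intro a b hab
    apply ψ.injective
    simp only [Prod.mk.injEq] at hab
    exact Prod.ext hab.2 hab.1)
  exact h3

lemma VV_cc (ψ : E ≃ N × Fin n) (w : Fin n → L2 N) : VV ψ (cc ψ w) (cc_mem ψ w) = w := by
  funext j
  apply Subtype.ext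
  funext h
  change cc ψ w (ψ.symm (h⁻¹, j)) = w j h
  unfold cc
  rw [Equiv.apply_symm_apply, inv_inv]

lemma act_VV {E' : Type} {n' : ℕ} (ψ : E ≃ N × Fin n) (ψ' : E' ≃ N × Fin n')
    (bd : (E' →₀ ℤ) → (E →₀ ℤ)) (d : Matrix (Fin n') (Fin n) (MonoidAlgebra ℤ N))
    (hd : ∀ (e : E') (f : E), (bd (Finsupp.single e 1)) f =
      (d (ψ' e).2 (ψ f).2).coeff ((ψ' e).1⁻¹ * (ψ f).1))
    (c : E → ℂ) (hc : Memℓp c 2) (e : E') :
    (act (d.map L) (VV ψ c hc) (ψ' e).2) ((ψ' e).1⁻¹) =
      (bd (Finsupp.single e 1)).sum fun f n => ((n : ℤ) : ℂ) * c f := by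
  set k := (ψ' e).2 with hk
  set m₀ := (ψ' e).1 with hm
  have h1 : (bd (Finsupp.single e 1)).sum (fun f n => ((n : ℤ) : ℂ) * c f) =
      ∑ᶠ f, (((bd (Finsupp.single e 1)) f : ℤ) : ℂ) * c f := by
    rw [Finsupp.sum, finsum_eq_sum_of_support_subset]
    intro f hf
    rw [Finset.mem_coe, Finsupp.mem_support_iff]
    intro h0
    apply hf
    simp [h0]
  have hfin := fin_supp (bd (Finsupp.single e 1)) c
  rw [h1, ← finsum_comp_equiv ((Equiv.prodComm (Fin n) N).trans ψ.symm), finsum_curry,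
    finsum_eq_sum_of_fintype]
  · unfold act
    rw [lp.coeFn_sum, Finset.sum_apply]
    refine Finset.sum_congr rfl fun j _ => ?_
    rw [Matrix.map_apply, L_apply, ← finsum_comp_equiv (Equiv.mulLeft m₀⁻¹)]
    refine finsum_congr fun g => ?_
    rw [VV_apply]
    simp only [Equiv.coe_mulLeft, Equiv.trans_apply, Equiv.prodComm_apply, Prod.swap_prod_mk]
    rw [hd, Equiv.apply_symm_apply, ← hk, ← hm]
    simp
  · exact hfin.preimage (((Equiv.prodComm (Fin n) N).trans ψ.symm).injective.injOn)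

theorem ltwo (hres : S_RES) : S_LTWO := by
  intro N _ U hfree c rep hrep X hX
  obtain ⟨X', ψ, -, hψ⟩ := hres N U hfree c rep hrep
  have hX' : ∀ i, ExAt X' (toRed N) i := fun i => ex_indep X X' (toRed N) i (hX i)
  have key : ∀ i, ((X'.d i).map (toRed N)).map (valR (G := N)) = (X'.d i).map (L (G := N)) := by
    intro i
    refine funext fun j => funext fun k => ?_
    exact coe_toRed (X'.d i j k)
  constructor
  · intro c hc h0
    obtain ⟨s, e0, -⟩ := contraction' X' (toRed N) 0 (fun i _ => hX' i)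
    have f0 : (s 0).map (valR (G := N)) * (X'.d 0).map L = 1 := by
      have := map_ident0 (valR (G := N)) _ _ e0
      rwa [key 0] at this
    have h1 : act ((X'.d 0).map L) (VV (ψ 0) c hc) = 0 := by
      funext k
      apply Subtype.ext
      funext h
      have h2 := act_VV (ψ 0) (ψ 1) (fun x => U.bd 0 x) (X'.d 0) (hψ 0) c hc
        ((ψ 1).symm (h⁻¹, k))
      rw [Equiv.apply_symm_apply] at h2
      simp only [inv_inv] at h2
      exact h2.trans (h0 _)
    have h3 : VV (ψ 0) c hc = 0 := by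
      rw [← act_one (VV (ψ 0) c hc), ← f0, act_mul, h1, act_zero]
    funext e
    have h4 := VV_apply (ψ 0) c hc (ψ 0 e).2 ((ψ 0 e).1⁻¹)
    rw [inv_inv, Prod.mk.eta, Equiv.symm_apply_apply, h3] at h4
    exact h4.symm
  · intro i c hc h0
    obtain ⟨s, -, e1⟩ := contraction' X' (toRed N) (i + 1) (fun i _ => hX' i)
    have f1 : (X'.d i).map L * (s i).map (valR (G := N)) +
        (s (i + 1)).map (valR (G := N)) * (X'.d (i + 1)).map L = 1 := by
      have := map_ident (valR (G := N)) _ _ _ _ (e1 i le_rfl)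
      rwa [key i, key (i + 1)] at this
    have h1 : act ((X'.d (i + 1)).map L) (VV (ψ (i + 1)) c hc) = 0 := by
      funext k
      apply Subtype.ext
      funext h
      have h2 := act_VV (ψ (i + 1)) (ψ (i + 2)) (fun x => U.bd (i + 1) x) (X'.d (i + 1))
        (hψ (i + 1)) c hc ((ψ (i + 2)).symm (h⁻¹, k))
      rw [Equiv.apply_symm_apply] at h2
      simp only [inv_inv] at h2
      exact h2.trans (h0 _)
    set w := act ((s i).map (valR (G := N))) (VV (ψ (i + 1)) c hc) with hw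
    have h3 : VV (ψ (i + 1)) c hc = act ((X'.d i).map L) w := by
      conv_lhs => rw [← act_one (VV (ψ (i + 1)) c hc), ← f1, act_add, act_mul, act_mul, h1,
        act_zero, add_zero]
    refine ⟨cc (ψ i) w, cc_mem (ψ i) w, fun e => ?_⟩
    have h2 := act_VV (ψ i) (ψ (i + 1)) (fun x => U.bd i x) (X'.d i) (hψ i) (cc (ψ i) w)
      (cc_mem (ψ i) w) e
    rw [VV_cc, ← h3, VV_apply, inv_inv, Prod.mk.eta, Equiv.symm_apply_apply] at h2
    exact h2

end

end Pool.Agent.Q241.ZD
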